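import Pool.Agent.Helper57.ZF.Goals

set_option autoImplicit false

/-! Project ZF, packet TEL. -/

namespace Pool.Agent.Helper90.ZF

theorem step (pk : ℤ → ℕ) (B : ℕ) (hpk : Antitone pk) (hB : ∀ m, pk m ≤ B) (I : Finset ℤ) :
    ∑ m ∈ I, ((pk m : ℤ) - pk (m + 1)) ≤ B := by
  obtain ⟨x, hx⟩ := I.bddBelow
  obtain ⟨y, hy⟩ := I.bddAbove
  have hsub : I ⊆ (Finset.range ((y - x).toNat + 1)).image (fun i : ℕ => x + (i : ℤ)) := by
    intro m hm
    have h1 : x ≤ m := hx hm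
    have h2 : m ≤ y := hy hm
    rw [Finset.mem_image]
    refine ⟨(m - x).toNat, ?_, ?_⟩
    · rw [Finset.mem_range]
      omega
    · omega
  have h1 : ∑ m ∈ I, ((pk m : ℤ) - pk (m + 1)) ≤
      ∑ m ∈ (Finset.range ((y - x).toNat + 1)).image (fun i : ℕ => x + (i : ℤ)),
        ((pk m : ℤ) - pk (m + 1)) := by
    apply Finset.sum_le_sum_of_subset_of_nonneg hsub
    intro m _ _
    have := hpk (show m ≤ m + 1 by omega)
    omega
  refine h1.trans ?_
  rw [Finset.sum_image (by intro a _ b _ h; simpa using h)]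
  have h2 : ∀ n : ℕ, ∑ i ∈ Finset.range n, ((pk (x + (i : ℤ)) : ℤ) - pk (x + (i : ℤ) + 1)) =
      (pk x : ℤ) - pk (x + n) := by
    intro n
    induction n with
    | zero => simp
    | succ n ih =>
      rw [Finset.sum_range_succ, ih]
      push_cast
      rw [← add_assoc]
      ring
  rw [h2]
  have := hB x
  omega

theorem TEL : Pool.Agent.Helper57.ZF.G_TEL := by
  intro pk B I a hpk hB hI
  have h1 : ∀ c : ℤ, ∑ m ∈ I, (pk (m + c) : ℤ) ≤ ∑ m ∈ I, (pk (m + (c + 1)) : ℤ) + B := by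
    intro c
    have h := step (fun m => pk (m + c)) B (fun u v huv => hpk (by omega)) (fun m => hB _) I
    rw [Finset.sum_sub_distrib] at h
    have h2 : ∑ m ∈ I, (pk (m + 1 + c) : ℤ) = ∑ m ∈ I, (pk (m + (c + 1)) : ℤ) := by
      refine Finset.sum_congr rfl fun m _ => ?_
      rw [show m + 1 + c = m + (c + 1) by ring]
    simp only [h2] at h
    linarith
  have h2 : ∀ n : ℕ, ∑ m ∈ I, (pk (m + (-5)) : ℤ) ≤ ∑ m ∈ I, (pk (m + (-5 + (n : ℤ))) : ℤ) + n * B := by
    intro n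
    induction n with
    | zero => simp
    | succ n ih =>
      have h := h1 (-5 + (n : ℤ))
      push_cast
      rw [show (-5 : ℤ) + ((n : ℤ) + 1) = -5 + (n : ℤ) + 1 by ring]
      linarith
  have h3 := h2 13
  have h4 : ∑ m ∈ I, ((pk (m + 8) : ℤ) + a m) ≤ ∑ m ∈ I, (pk (m + (-5)) : ℤ) := by
    refine Finset.sum_le_sum fun m hm => ?_
    have := hI m hm
    rw [show m + (-5 : ℤ) = m - 5 by ring]
    exact_mod_cast this
  rw [Finset.sum_add_distrib] at h4
  have h5 : ((∑ m ∈ I, a m : ℕ) : ℤ) ≤ ((13 * B : ℕ) : ℤ) := by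
    push_cast
    rw [show (-5 : ℤ) + ((13 : ℕ) : ℤ) = 8 by norm_num] at h3
    push_cast at h3
    linarith
  exact_mod_cast h5

end Pool.Agent.Helper90.ZF
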